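import Pool.Agent.H240.GU.Hyp2
import Pool.Agent.H240.BS.Fin6

/-!
# The generic continuous metric in the closure of the negatively curved metrics has singular limits

Let `(M, g)` be ANY closed connected orientable surface with a smooth metric of negative curvature, with a
simple closed geodesic `c` (scaled to length `2π`). They are described as follows: `M` is the quotient of
a plane domain `Ω` (contained in a half plane `Re z < R₀`) by a group `G` which acts freely, properly
discontinuously and cocompactly by holomorphic maps and which contains the translation by `2πi`, `g` is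
given by an invariant metric `exp (2 φ) |dz|²` on `Ω`, and the closed geodesic has a lift `c` with
`c (t + 2π) = c t + 2πi`. (Every closed orientable surface of negative curvature is of this form, after
multiplying the metric by a constant: it has a simple closed geodesic, for instance a shortest closed
geodesic; take for `Ω` the universal covering, which is conformally equivalent to a vertical strip such
that the deck transformation of the geodesic is the translation by `2πi`.)

Let `N ⊆ C(M)` be the set of the smooth functions `f` for which the metric `exp (2 f) g` has negative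
curvature everywhere and a simple closed geodesic of length `2π` which has a lift as above, and let `X` be
the closure of `N` in the Banach space `C(M)` of the continuous functions. So `X` is a complete metric
space; the metrics `exp (2 f) g`, `f ∈ X`, are the continuous metrics (in the conformal class) which are
uniform limits of the negatively curved metrics, suitably scaled; their curvature is nonpositive in the
sense of distributions.

Continuous metrics have a Laplace operator: an eigenfunction in the weak sense is a limit in `L²` of `C¹`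
functions `F k`, whose gradients form a Cauchy sequence in `L²`, such that
`∫ ⟨∇ F k, ∇ G⟩ → lam ∫ u G` for all `C¹` functions `G`. Ordered orthonormal bases of weak eigenfunctions
exist for all continuous metrics, and for smooth metrics the weak eigenfunctions are (up to null sets) the
smooth eigenfunctions; this is part of the theorem.

**Theorem.** For the generic `f ∈ X` (for all `f` in a residual set, which is dense in `X`) there is a
closed set `S` in `M` of area `0`, contained in a finite union of Lipschitz curves, such that every ordered orthonormal basis `u 0, u 1, …` of weak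
eigenfunctions of `exp (2 f) g` has a subsequence, whose counting function is not `O (√Λ)`, which
concentrates on `S`: `∫ h (u j)² dA → 0` along the subsequence for all continuous functions `h` on `M`
which vanish on `S`.

So this single metric is not quantum uniquely ergodic: all limit measures of the subsequence are carried by
the closed null set `S` of dimension at most `1`, they are singular to the area. (For smooth metrics of negative curvature all limit
measures have full support, by Dyatlov, Jin and Nonnenmacher.)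

Proof. The theorem `MP_07c750_an.ScarsNearEveryGeodesic` gives near each `f₀ ∈ N` an `f₁ ∈ X` for which the
eigenfunctions of a subsequence concentrate on a closed geodesic `c'`. The distance functions of the closed
curves of bounded speed (in a finite number of coordinates of the surface) form a relatively compact set
in `C(M)` (Arzelà and Ascoli), and the limits vanish only on null sets, on Lipschitz curves. The
eigenfunctions depend continuously on the metric in the `C⁰` topology, so all `f' ∈ X` near `f₁` have in an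
energy window many eigenfunctions which are small outside of a neighbourhood of `c'`, in every basis.
Baire's theorem and the compactness give the claim.
-/

set_option autoImplicit false

open Set Filter Topology MeasureTheory
open scoped ContDiff NNReal

noncomputable section

namespace Pool.Agent.Results.MP_07c750_an.GenericContinuousMetric

/-- the partial derivative with respect to `x` -/
def px (φ : ℂ → ℝ) (z : ℂ) : ℝ := fderiv ℝ φ z 1

/-- the partial derivative with respect to `y` -/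
def py (φ : ℂ → ℝ) (z : ℂ) : ℝ := fderiv ℝ φ z Complex.I

/-- the nonnegative Laplace-Beltrami operator of the metric `exp (2 φ) |dz|²` -/
def lapl (φ v : ℂ → ℝ) (z : ℂ) : ℝ := -(Real.exp (-2 * φ z) * (px (px v) z + py (py v) z))

/-- the Gauss curvature of the metric `exp (2 φ) |dz|²` -/
def curvature (φ : ℂ → ℝ) (z : ℂ) : ℝ := lapl φ φ z

/-- The group `G` acts on the connected open set `Ω` of the plane by holomorphic maps `a γ`, freely
(modulo the elements which act trivially), properly discontinuously and cocompactly. -/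
structure IsCocompactAction (G : Type) [Group G] (Ω : Set ℂ) (a : G → ℂ → ℂ) : Prop where
  domain : IsOpen Ω
  conn : IsPreconnected Ω
  nonempty : Ω.Nonempty
  maps : ∀ γ, ∀ z ∈ Ω, a γ z ∈ Ω
  one : ∀ z ∈ Ω, a 1 z = z
  mul : ∀ γ γ', ∀ z ∈ Ω, a (γ * γ') z = a γ (a γ' z)
  hol : ∀ γ, DifferentiableOn ℂ (a γ) Ω
  free : ∀ γ, ∀ z ∈ Ω, a γ z = z → ∀ w ∈ Ω, a γ w = w
  proper : ∀ K : Set ℂ, IsCompact K → K ⊆ Ω → {γ | (a γ '' K ∩ K).Nonempty}.Finite
  cocompact : ∃ K : Set ℂ, IsCompact K ∧ K ⊆ Ω ∧ ∀ z ∈ Ω, ∃ γ, a γ z ∈ K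

/-- the smooth metric `exp (2 φ) |dz|²` on `Ω` is invariant under the group -/
def IsInvariantMetric {G : Type} (Ω : Set ℂ) (a : G → ℂ → ℂ) (φ : ℂ → ℝ) : Prop :=
  ContDiffOn ℝ ∞ φ Ω ∧ ∀ γ, ∀ z ∈ Ω, deriv (a γ) z ≠ 0 ∧
    φ (a γ z) + Real.log ‖deriv (a γ) z‖ = φ z

section

variable {M : Type}

/-- `M` is the quotient of `Ω` by the group, with the projection `pr` (a covering) -/
structure IsQuotient [TopologicalSpace M] {G : Type} (Ω : Set ℂ) (a : G → ℂ → ℂ) (pr : ℂ → M) :
    Prop where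
  cont : ContinuousOn pr Ω
  open_map : ∀ O : Set ℂ, IsOpen O → O ⊆ Ω → IsOpen (pr '' O)
  surj : pr '' Ω = univ
  rel : ∀ z ∈ Ω, ∀ w ∈ Ω, (pr z = pr w ↔ ∃ γ, a γ z = w)
  loc_inj : ∀ z ∈ Ω, ∃ r : ℝ, 0 < r ∧ Metric.ball z r ⊆ Ω ∧ InjOn pr (Metric.ball z r)
  conn : IsPreconnected (univ : Set M)

/-- `M = Ω / G` is a closed connected surface with the metric `exp (2 φ) |dz|²` of negative curvature;
the domain `Ω` is contained in a half plane `Re z < R₀`, and the translation by `2πi` belongs to the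
group -/
structure IsNegativelyCurvedSurface (G : Type) [Group G] [TopologicalSpace M] (Ω : Set ℂ)
    (a : G → ℂ → ℂ) (φ : ℂ → ℝ) (pr : ℂ → M) : Prop where
  action : IsCocompactAction G Ω a
  quotient : IsQuotient Ω a pr
  metric : IsInvariantMetric Ω a φ
  negative : ∀ z ∈ Ω, curvature φ z < 0
  translation : ∃ γ : G, ∀ z ∈ Ω, a γ z = z + 2 * Real.pi * Complex.I
  bounded : ∃ R₀ : ℝ, ∀ z ∈ Ω, z.re < R₀

/-- the unit vectors `(z, θ)` (the vector `exp (- φ z) exp (i θ)` at `z`) at the points of `Ω` -/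
def UV (Ω : Set ℂ) : Set (ℂ × ℝ) := {p | p.1 ∈ Ω}

/-- `μ` is the area of the surface -/
def IsAreaM [MeasurableSpace M] (Ω : Set ℂ) (φ : ℂ → ℝ) (pr : ℂ → M) (μ : Measure M) : Prop :=
  ∀ B : Set ℂ, MeasurableSet B → B ⊆ Ω → InjOn pr B →
    μ (pr '' B) = ∫⁻ z in B, ENNReal.ofReal (Real.exp (2 * φ z))

/-- the geodesic vector field: `z' = exp (- φ) exp (i θ)`,
`θ' = exp (- φ) (- φ_x sin θ + φ_y cos θ)` -/
def geod (φ : ℂ → ℝ) (p : ℂ × ℝ) : ℂ × ℝ :=
  (⟨Real.exp (-φ p.1) * Real.cos p.2, Real.exp (-φ p.1) * Real.sin p.2⟩,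
    Real.exp (-φ p.1) * (-(px φ p.1) * Real.sin p.2 + py φ p.1 * Real.cos p.2))

/-- `F` is the geodesic flow (it is complete and smooth) -/
structure IsGeodesicFlow (Ω : Set ℂ) (φ : ℂ → ℝ) (F : ℝ → ℂ × ℝ → ℂ × ℝ) : Prop where
  maps : ∀ t, ∀ p ∈ UV Ω, F t p ∈ UV Ω
  zero : ∀ p ∈ UV Ω, F 0 p = p
  ode : ∀ t, ∀ p ∈ UV Ω, HasDerivAt (fun τ => F τ p) (geod φ (F t p)) t
  smooth : ContDiffOn ℝ ∞ (fun a : ℝ × (ℂ × ℝ) => F a.1 a.2) {a | a.2 ∈ UV Ω}

/-- `t ↦ pr (c t)` is a simple closed geodesic of length `2π` of the metric `exp (2 φ) |dz|²`,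
parametrised by the arc length: `c` is the projection of an orbit of the geodesic flow, its lift `c`
satisfies `c (t + 2π) = c t + 2πi`, and `c s`, `c t` are the same point of the surface if and only if
`t - s` is a multiple of `2π` -/
structure IsClosedGeodesic (Ω : Set ℂ) (φ : ℂ → ℝ) (pr : ℂ → M) (c : ℝ → ℂ) : Prop where
  mem : c 0 ∈ Ω
  orbit : ∃ (F : ℝ → ℂ × ℝ → ℂ × ℝ) (θ : ℝ), IsGeodesicFlow Ω φ F ∧ ∀ t, (F t (c 0, θ)).1 = c t
  period : ∀ t, c (t + 2 * Real.pi) = c t + 2 * Real.pi * Complex.I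
  simple : ∀ s t, pr (c s) = pr (c t) ↔ ∃ n : ℤ, t = s + n * (2 * Real.pi)

/-- `u` is a smooth real eigenfunction of the Laplacian of the surface with the eigenvalue `lam` -/
def IsEigenfunction (Ω : Set ℂ) (φ : ℂ → ℝ) (pr : ℂ → M) (lam : ℝ) (u : M → ℝ) : Prop :=
  ContDiffOn ℝ ∞ (fun z => u (pr z)) Ω ∧
    ∀ z ∈ Ω, lapl φ (fun z => u (pr z)) z = lam * u (pr z)

/-- the scalar product of the gradients of two functions on the surface with the metric
`exp (2 φ) |dz|²`, at the point `x`; it is computed at some point of `Ω` over `x` -/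
def gradDot (Ω : Set ℂ) (φ : ℂ → ℝ) (pr : ℂ → M) (F G : M → ℝ) (x : M) : ℝ :=
  open Classical in if h : ∃ z, z ∈ Ω ∧ pr z = x then
    Real.exp (-2 * φ h.choose) *
      (px (fun z => F (pr z)) h.choose * px (fun z => G (pr z)) h.choose +
        py (fun z => F (pr z)) h.choose * py (fun z => G (pr z)) h.choose) else 0

/-- `u` is a weak eigenfunction of the Laplacian of the surface with the continuous metric
`exp (2 φ) |dz|²` and the area `μ`, with the eigenvalue `lam` -/
structure IsWeakEigenfunction [MeasurableSpace M] (Ω : Set ℂ) (φ : ℂ → ℝ) (pr : ℂ → M)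
    (μ : Measure M) (lam : ℝ) (u : M → ℝ) : Prop where
  mem : MemLp u 2 μ
  ex : ∃ F : ℕ → M → ℝ, (∀ k, ContDiffOn ℝ 1 (fun z => F k (pr z)) Ω) ∧
    Tendsto (fun k => ∫ x, (F k x - u x) ^ 2 ∂μ) atTop (𝓝 0) ∧
    Tendsto (fun p : ℕ × ℕ => ∫ x, gradDot Ω φ pr (fun y => F p.1 y - F p.2 y)
      (fun y => F p.1 y - F p.2 y) x ∂μ) atTop (𝓝 0) ∧
    ∀ G : M → ℝ, ContDiffOn ℝ 1 (fun z => G (pr z)) Ω →
      Tendsto (fun k => ∫ x, gradDot Ω φ pr (F k) G x ∂μ) atTop (𝓝 (lam * ∫ x, u x * G x ∂μ))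

/-- `u 0, u 1, …` is an orthonormal basis of `L²` of weak eigenfunctions of the Laplacian of the surface,
ordered so that the eigenvalues `lam 0 ≤ lam 1 ≤ …` increase; the last condition says that the span of
the functions `u j` is dense in `L²` -/
structure IsWeakEigenbasis [MeasurableSpace M] (Ω : Set ℂ) (φ : ℂ → ℝ) (pr : ℂ → M)
    (μ : Measure M) (u : ℕ → M → ℝ) (lam : ℕ → ℝ) : Prop where
  eig : ∀ j, IsWeakEigenfunction Ω φ pr μ (lam j) (u j)
  mono : Monotone lam
  orth : ∀ i j, ∫ x, u i x * u j x ∂μ = if i = j then 1 else 0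
  total : ∀ f : M → ℝ, MemLp f 2 μ → (∀ j, ∫ x, f x * u j x ∂μ = 0) → f =ᵐ[μ] 0

/-- the smooth functions `f` such that the metric `exp (2 f) g`, `g = exp (2 φ) |dz|²`, has negative
curvature and a simple closed geodesic of length `2π` which has a lift with the period `2πi` -/
def NegativeFactors [TopologicalSpace M] (Ω : Set ℂ) (φ : ℂ → ℝ) (pr : ℂ → M) : Set C(M, ℝ) :=
  {f | ContDiffOn ℝ ∞ (fun z => f (pr z)) Ω ∧
    (∀ z ∈ Ω, curvature (fun z => φ z + f (pr z)) z < 0) ∧
    ∃ c : ℝ → ℂ, IsClosedGeodesic Ω (fun z => φ z + f (pr z)) pr c}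

end

/-- the number of the indices `j` in `J` with `lam j ≤ Λ` -/
def number (lam : ℕ → ℝ) (J : Set ℕ) (Λ : ℝ) : ℕ := {j | j ∈ J ∧ lam j ≤ Λ}.ncard

/-- the set `S` is contained in a finite union of Lipschitz curves: of the projections to the surface of
the parts in `Ω` of the images of finitely many Lipschitz maps `γ i : ℝ → ℂ` of the interval `[0, 2π]` -/
def IsOnCurves {M : Type} (Ω : Set ℂ) (pr : ℂ → M) (S : Set M) : Prop :=
  ∃ (ι : Type) (_ : Finite ι) (γ : ι → ℝ → ℂ) (L : ℝ≥0), (∀ i, LipschitzWith L (γ i)) ∧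
    S ⊆ ⋃ i, pr '' (Ω ∩ γ i '' Icc 0 (2 * Real.pi))

/-- The metric `exp (2 f) g` has singular quantum limits: there is a closed set `S` of area `0`, contained
in a finite union of Lipschitz curves, such that each ordered orthonormal basis of weak eigenfunctions has
a subsequence, whose counting function is not `O (√Λ)`, along which the integrals of `h (u j)²` tend to `0`
for all continuous functions `h` which vanish on `S`; so all limit measures of the subsequence are carried
by `S` -/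
def HasSingularLimits {M : Type} [TopologicalSpace M] [MeasurableSpace M] (Ω : Set ℂ) (φ : ℂ → ℝ)
    (pr : ℂ → M) (f : C(M, ℝ)) : Prop :=
  ∃ S : Set M, IsClosed S ∧ IsOnCurves Ω pr S ∧
    ∀ μ : Measure M, IsAreaM Ω (fun z => φ z + f (pr z)) pr μ → μ S = 0 ∧
    ∀ (u : ℕ → M → ℝ) (lam : ℕ → ℝ), IsWeakEigenbasis Ω (fun z => φ z + f (pr z)) pr μ u lam →
    Tendsto lam atTop atTop ∧ ∃ J : Set ℕ,
      (∀ C : ℝ, ∃ᶠ Λ : ℝ in atTop, C * Real.sqrt Λ < number lam J Λ) ∧
      ∀ h : C(M, ℝ), (∀ x ∈ S, h x = 0) →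
        Tendsto (fun j => ∫ x, h x * (u j x) ^ 2 ∂μ) (atTop ⊓ 𝓟 J) (𝓝 0)

/-- **The generic continuous metric in the closure of the negatively curved metrics has singular quantum
limits.** The first part says that the hypotheses can be satisfied by a closed hyperbolic surface (of curvature `- k`). -/
theorem result :
    (∃ (G : Type) (_ : Group G) (M : Type) (_ : MetricSpace M) (_ : CompactSpace M) (Ω : Set ℂ)
      (a : G → ℂ → ℂ) (φ : ℂ → ℝ) (pr : ℂ → M) (c : ℝ → ℂ) (k : ℝ),
      IsNegativelyCurvedSurface G Ω a φ pr ∧ IsClosedGeodesic Ω φ pr c ∧ 0 < k ∧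
      ∀ z ∈ Ω, curvature φ z = -k) ∧
    ∀ (G : Type) [Group G] (M : Type) [MetricSpace M] [CompactSpace M] [MeasurableSpace M]
      [BorelSpace M] (Ω : Set ℂ) (a : G → ℂ → ℂ) (φ : ℂ → ℝ) (pr : ℂ → M) (c : ℝ → ℂ),
      IsNegativelyCurvedSurface G Ω a φ pr → IsClosedGeodesic Ω φ pr c →
    (0 : C(M, ℝ)) ∈ NegativeFactors Ω φ pr ∧
    (∀ f : C(M, ℝ), ∃ μ : Measure M, IsAreaM Ω (fun z => φ z + f (pr z)) pr μ ∧
      IsFiniteMeasure μ ∧ ∃ (u : ℕ → M → ℝ) (lam : ℕ → ℝ),
        IsWeakEigenbasis Ω (fun z => φ z + f (pr z)) pr μ u lam) ∧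
    (∀ f : C(M, ℝ), ContDiffOn ℝ ∞ (fun z => f (pr z)) Ω → ∀ μ : Measure M,
      IsAreaM Ω (fun z => φ z + f (pr z)) pr μ → ∀ (lam : ℝ) (u : M → ℝ),
      (IsWeakEigenfunction Ω (fun z => φ z + f (pr z)) pr μ lam u ↔
        ∃ v : M → ℝ, u =ᵐ[μ] v ∧ IsEigenfunction Ω (fun z => φ z + f (pr z)) pr lam v)) ∧
    (∀ᶠ f : closure (NegativeFactors Ω φ pr) in residual (closure (NegativeFactors Ω φ pr)),
      HasSingularLimits Ω φ pr f.1) ∧
    Dense {f : closure (NegativeFactors Ω φ pr) | HasSingularLimits Ω φ pr f.1} := by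
  have hcu : ∀ {M : Type} {Ω : Set ℂ} {φ : ℂ → ℝ} {pr : ℂ → M} {c : ℝ → ℂ},
      Pool.Agent.H240.GV.Cu Ω φ pr c → IsClosedGeodesic Ω φ pr c := by
    intro M Ω φ pr c h
    obtain ⟨F, θ, hF, ho⟩ := h.orbit
    exact ⟨h.mem, ⟨F, θ, ⟨hF.maps, hF.zero, hF.ode, hF.smooth⟩, ho⟩, h.per, h.simple⟩
  have hcu' : ∀ {M : Type} {Ω : Set ℂ} {φ : ℂ → ℝ} {pr : ℂ → M} {c : ℝ → ℂ},
      IsClosedGeodesic Ω φ pr c → Pool.Agent.H240.GV.Cu Ω φ pr c := by
    intro M Ω φ pr c h
    obtain ⟨F, θ, hF, ho⟩ := h.orbit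
    exact ⟨⟨F, θ, ⟨hF.maps, hF.zero, hF.ode, hF.smooth⟩, ho⟩, h.mem, h.period, h.simple⟩
  refine ⟨?_, ?_⟩
  · obtain ⟨G, iG, Ω, a, φ, M, iM, iC, pr, γ₀, R₀, k, c, hA, hI, hpr, hγ, hR, hk, hc, h⟩ :=
      Pool.Agent.H240.GV.hyp2
    exact ⟨G, iG, M, iM, iC, Ω, a, φ, pr, c, k, ⟨⟨hA.opn, hA.conn, hA.ne, hA.maps, hA.one,
      hA.mul, hA.hol, hA.free, hA.fin, hA.cpt⟩, ⟨hpr.cont, hpr.opn, hpr.surj, hpr.rel, hpr.inj,
      hpr.conn⟩, hI, fun z hz => (hc z hz).trans_lt (by linarith), ⟨γ₀, hγ⟩, ⟨R₀, hR⟩⟩, hcu h, hk,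
      hc⟩
  intro G _ M _ _ _ _ Ω a φ pr c hS hc
  obtain ⟨hG, hM, hφ, hK, ⟨γ₀, hγ⟩, ⟨R₀, hR⟩⟩ := hS
  have hA : Pool.Agent.Y262.EX.Act G Ω a := ⟨hG.domain, hG.conn, hG.nonempty, hG.maps, hG.one,
    hG.mul, hG.hol, hG.free, hG.proper, hG.cocompact⟩
  have hI : Pool.Agent.Y262.EX.Inva Ω φ a := hφ
  have hpr : Pool.Agent.Y262.EX.PrM Ω a pr :=
    ⟨hM.cont, hM.open_map, hM.surj, hM.rel, hM.loc_inj, hM.conn⟩
  have hN : NegativeFactors Ω φ pr = Pool.Agent.H240.BR.Nf Ω φ pr := by
    ext f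
    constructor
    · rintro ⟨h1, h2, c', h3⟩
      exact ⟨h1, h2, c', hcu' h3⟩
    · rintro ⟨h1, h2, c', h3⟩
      exact ⟨h1, h2, c', hcu h3⟩
  have hw : ∀ (Φ : ℂ → ℝ) (μ : Measure M) (lam : ℝ) (u : M → ℝ),
      IsWeakEigenfunction Ω Φ pr μ lam u ↔ Pool.Agent.H240.BR.WkEf Ω Φ pr μ lam u :=
    fun Φ μ lam u => ⟨fun h => ⟨h.mem, h.ex⟩, fun h => ⟨h.mem, h.ex⟩⟩
  have hb : ∀ (Φ : ℂ → ℝ) (μ : Measure M) (u : ℕ → M → ℝ) (lam : ℕ → ℝ),
      IsWeakEigenbasis Ω Φ pr μ u lam ↔ Pool.Agent.H240.BR.WkB Ω Φ pr μ u lam :=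
    fun Φ μ u lam => ⟨fun h => ⟨fun j => (hw _ _ _ _).1 (h.eig j), h.mono, h.orth, h.total⟩,
      fun h => ⟨fun j => (hw _ _ _ _).2 (h.eig j), h.mono, h.orth, h.total⟩⟩
  obtain ⟨h1, h2, h3, h4⟩ := Pool.Agent.H240.BS.finC G M Ω a φ pr c R₀ γ₀
    hA hI hpr hγ hR hK (hcu' hc)
  have h5 : ∀ᶠ f : closure (NegativeFactors Ω φ pr) in residual (closure (NegativeFactors Ω φ pr)),
      HasSingularLimits Ω φ pr f.1 := by
    rw [hN]
    filter_upwards [h4] with f hf
    obtain ⟨g, g1, ⟨ι, iι, γ, L, g0, g0'⟩, g2⟩ := hf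
    refine ⟨{x | g x = 0}, isClosed_eq g.continuous continuous_const, ⟨ι, iι, γ, L, g0, g0'⟩,
      fun μ hμ => ?_⟩
    obtain ⟨hfin, -, k1, k2⟩ := g2 μ hμ
    refine ⟨k1, fun u lam hu => ?_⟩
    obtain ⟨k3, J, k4, k5⟩ := k2 u lam ((hb _ _ _ _).1 hu)
    refine ⟨k3, J, k4, fun h hh => ?_⟩
    refine Pool.Agent.H240.BS.conc g1 (fun j => (hu.eig j).mem) (fun j => ?_) k5 h hh
    have k6 := hu.orth j j
    rw [if_pos rfl] at k6
    rw [← k6]
    refine integral_congr_ae (Eventually.of_forall fun x => ?_)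
    simp only
    ring
  have : CompleteSpace (closure (NegativeFactors Ω φ pr)) := isClosed_closure.completeSpace_coe
  refine ⟨by rw [hN]; exact h1, fun f => ?_, fun f hf μ hμ lam u => ?_, h5,
    dense_of_mem_residual h5⟩
  · obtain ⟨μ, k1, k2, u, lam, k3⟩ := h2 f
    exact ⟨μ, k1, k2, u, lam, (hb _ _ _ _).2 k3⟩
  · rw [hw]
    exact h3 f hf μ hμ lam u

end Pool.Agent.Results.MP_07c750_an.GenericContinuousMetric
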