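import Pool.Agent.H240.NL.Fin

/-!
# Surfaces of negative curvature near a surface with a flat cylinder: localized eigenfunctions

There are a closed surface `M` with a smooth metric `g` of nonpositive curvature which contains a closed
flat cylinder `Z ≠ M` and has negative curvature outside of `Z`, and smooth metrics `exp (2 τ ψ) g` of
strictly negative curvature, `0 < τ < τ₁`, which converge to `g` in `C^∞` as `τ → 0`, with the following
property. For every neighbourhood `U` of `Z`, every `ε > 0`, every `C` and every `Λ₀` there are `Λ₁` and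
`η > 0` such that for all smooth functions `f` with `|f| < η` and every ordered orthonormal basis `u j` of
smooth real eigenfunctions of the metric `exp (2 f) g` there is a `Λ` between `Λ₀` and `Λ₁` for which more
than `C √Λ` of the eigenfunctions with eigenvalue at most `Λ` have at least the part `1 - ε` of their mass
in `U`. In particular this holds for the negatively curved metrics `exp (2 τ ψ) g` with small `τ`, and for
all the negatively curved metrics near them.

What this means for the question. On a closed surface of negative curvature the eigenfunctions have full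
support in a quantitative sense: by a theorem of Dyatlov, Jin and Nonnenmacher, for every nonempty open
set `O` all the normalised eigenfunctions have a mass at least `c > 0` on `O`, with `c` depending on `O`
and the metric; quantum unique ergodicity predicts that the mass converges to the relative area of `O`.
The theorem shows that neither of these statements holds uniformly in the metric, even for large
eigenvalues: for the negatively curved metrics near `g`, an arbitrary (also arbitrarily large) spectral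
parameter `Λ₀` and an open set `O` whose closure does not meet `Z` the constant `c` is arbitrarily small,
also if it is only asked for the eigenfunctions with eigenvalue at least `Λ₀`, and there are many
eigenfunctions with this property.

How a surface is described. `Ω` is an open set of the plane with a smooth conformal metric
`exp (2 φ) |dz|²`, and `pr : Ω → M` is a continuous, open, surjective and locally injective map onto
the compact metric space `M`; points with the same image are related by a holomorphic local isometry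
over `M`. So `M` is a closed surface and the metric descends to `M`.

Proof. For the limit metric `g` every orthonormal eigenbasis contains more than `O (√Λ)` eigenfunctions
which are completely localized in `Z`, see `MP_ed6ab2_an`, `CompleteLocalization` (the new part, by means
of complex metrics, Cauchy's theorem and the variation of the eigenvalues). Suppose that the conclusion
fails for a sequence of functions `f n → 0` and eigenbases of the metrics `exp (2 f n) g`. A subsequence
of the eigenvalues and eigenfunctions converges, for each index; the limits form an orthonormal eigenbasis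
of `g` (no mass is lost, by the continuity of the eigenvalues), and the localization passes to the limit.
The surface and the function `ψ` are taken from the library (`Pool.Graph.R_seed8.Y262`).
-/

set_option autoImplicit false

open Set Filter Topology MeasureTheory
open scoped ContDiff

noncomputable section

namespace Pool.Agent.Results.MP_07c750_an.LocalizationNearFlatCylinder

/-- the partial derivative with respect to `x` -/
def px (φ : ℂ → ℝ) (z : ℂ) : ℝ := fderiv ℝ φ z 1

/-- the partial derivative with respect to `y` -/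
def py (φ : ℂ → ℝ) (z : ℂ) : ℝ := fderiv ℝ φ z Complex.I

/-- the nonnegative Laplace-Beltrami operator of the metric `exp (2 φ) |dz|²` -/
def lapl (φ v : ℂ → ℝ) (z : ℂ) : ℝ := -(Real.exp (-2 * φ z) * (px (px v) z + py (py v) z))

/-- the Gauss curvature of the metric `exp (2 φ) |dz|²` -/
def curvature (φ : ℂ → ℝ) (z : ℂ) : ℝ := lapl φ φ z

section

variable {M : Type}

/-- `γ` is a holomorphic local isometry on the ball around `z` with radius `r`, over the surface, and
`γ z = w` -/
def LocIso (Ω : Set ℂ) (φ : ℂ → ℝ) (pr : ℂ → M) (r : ℝ) (γ : ℂ → ℂ) (z w : ℂ) : Prop :=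
  0 < r ∧ Metric.ball z r ⊆ Ω ∧ DifferentiableOn ℂ γ (Metric.ball z r) ∧ γ z = w ∧
    ∀ ζ ∈ Metric.ball z r, γ ζ ∈ Ω ∧ pr (γ ζ) = pr ζ ∧ deriv γ ζ ≠ 0 ∧
      φ (γ ζ) + Real.log ‖deriv γ ζ‖ = φ ζ

/-- `M` is a surface with a Riemannian metric which is covered by means of `pr` by the plane domain
`Ω` with the smooth metric `exp (2 φ) |dz|²` -/
structure IsSurface [TopologicalSpace M] (Ω : Set ℂ) (φ : ℂ → ℝ) (pr : ℂ → M) : Prop where
  domain : IsOpen Ω
  smooth : ContDiffOn ℝ ∞ φ Ω
  cont : ContinuousOn pr Ω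
  open_map : ∀ O : Set ℂ, IsOpen O → O ⊆ Ω → IsOpen (pr '' O)
  surj : pr '' Ω = univ
  loc_inj : ∀ z ∈ Ω, ∃ r : ℝ, 0 < r ∧ Metric.ball z r ⊆ Ω ∧ InjOn pr (Metric.ball z r)
  iso : ∀ z ∈ Ω, ∀ w ∈ Ω, pr z = pr w → ∃ (r : ℝ) (γ : ℂ → ℂ), LocIso Ω φ pr r γ z w

/-- `μ` is the area of the surface -/
def IsAreaM [MeasurableSpace M] (Ω : Set ℂ) (φ : ℂ → ℝ) (pr : ℂ → M) (μ : Measure M) : Prop :=
  ∀ B : Set ℂ, MeasurableSet B → B ⊆ Ω → InjOn pr B →
    μ (pr '' B) = ∫⁻ z in B, ENNReal.ofReal (Real.exp (2 * φ z))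

/-- `u` is a smooth real eigenfunction of the Laplacian of the surface with the eigenvalue `lam` -/
def IsEigenfunction (Ω : Set ℂ) (φ : ℂ → ℝ) (pr : ℂ → M) (lam : ℝ) (u : M → ℝ) : Prop :=
  ContDiffOn ℝ ∞ (fun z => u (pr z)) Ω ∧
    ∀ z ∈ Ω, lapl φ (fun z => u (pr z)) z = lam * u (pr z)

/-- `u 0, u 1, …` is an orthonormal basis of `L²` of smooth real eigenfunctions of the Laplacian of the
surface, ordered so that the eigenvalues `lam 0 ≤ lam 1 ≤ …` increase; the last condition says that the
span of the functions `u j` is dense in `L²` -/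
structure IsEigenbasis [MeasurableSpace M] (Ω : Set ℂ) (φ : ℂ → ℝ) (pr : ℂ → M) (μ : Measure M)
    (u : ℕ → M → ℝ) (lam : ℕ → ℝ) : Prop where
  eig : ∀ j, IsEigenfunction Ω φ pr (lam j) (u j)
  mono : Monotone lam
  orth : ∀ i j, ∫ x, u i x * u j x ∂μ = if i = j then 1 else 0
  total : ∀ f : M → ℝ, MemLp f 2 μ → (∀ j, ∫ x, f x * u j x ∂μ = 0) → f =ᵐ[μ] 0

/-- the closed set `Z` is a closed flat cylinder `[0, L] × (ℝ / 2πℤ)` in the surface: `pr` maps a
strip `-δ < Re z < L + δ` modulo `2πi` injectively to the surface, `Z` is the image of the closed strip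
`0 ≤ Re z ≤ L`, and there the metric is `|dz|²` -/
structure IsFlatCylinder (Ω : Set ℂ) (φ : ℂ → ℝ) (pr : ℂ → M) (L : ℝ) (Z : Set M) : Prop where
  pos : 0 < L
  nbhd : ∃ δ : ℝ, 0 < δ ∧ {z : ℂ | -δ < z.re ∧ z.re < L + δ} ⊆ Ω ∧
    ∀ z : ℂ, -δ < z.re → z.re < L + δ → ∀ w : ℂ, -δ < w.re → w.re < L + δ →
      (pr z = pr w ↔ ∃ n : ℤ, w = z + n * (2 * Real.pi * Complex.I))
  flat : ∀ z : ℂ, 0 ≤ z.re → z.re ≤ L → φ z = 0
  image : Z = pr '' {z | 0 ≤ z.re ∧ z.re ≤ L}

/-- the number of the indices `j` for which the eigenvalue `lam j` is at most `Λ` and `u j` has at least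
the part `1 - ε` of its mass in `U` -/
def concentrated [MeasurableSpace M] (μ : Measure M) (u : ℕ → M → ℝ) (lam : ℕ → ℝ) (U : Set M)
    (ε Λ : ℝ) : ℕ := {j | 1 - ε ≤ (∫ x in U, (u j x) ^ 2 ∂μ) ∧ lam j ≤ Λ}.ncard

end

/-- **Localized eigenfunctions near a flat cylinder.** There are a closed connected surface `M` with a
smooth metric `exp (2 φ) |dz|²` of nonpositive curvature, a closed flat cylinder `Z ≠ M` outside of
which the curvature is negative, and a smooth function `ψ` on `M` such that the metrics with the conformal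
factor `φ + τ ψ`, `0 < τ < τ₁`, have strictly negative curvature, with the following property: for every
open `U ⊇ Z`, all `C`, `Λ₀` and `ε > 0` there are `Λ₁` and `η > 0` such that for each smooth function `f`
on `M` with `|f| < η` and each ordered orthonormal basis of smooth real eigenfunctions of the metric with
the conformal factor `φ + f` there is a `Λ ∈ [Λ₀, Λ₁]` such that more than `C √Λ` of the eigenfunctions
with eigenvalue at most `Λ` have at least the part `1 - ε` of their mass in `U`. (Such bases exist for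
each smooth function `f`.) -/
theorem result : ∃ (M : Type) (_ : MetricSpace M) (_ : CompactSpace M) (_ : ConnectedSpace M)
    (_ : MeasurableSpace M) (_ : BorelSpace M) (Ω : Set ℂ) (φ : ℂ → ℝ) (pr : ℂ → M) (ψ : M → ℝ)
    (Z : Set M) (L τ₁ : ℝ),
    IsSurface Ω φ pr ∧ (∀ z ∈ Ω, curvature φ z ≤ 0) ∧ (∀ z ∈ Ω, pr z ∉ Z → curvature φ z < 0) ∧
    IsFlatCylinder Ω φ pr L Z ∧ Z ≠ univ ∧ ContDiffOn ℝ ∞ (fun z => ψ (pr z)) Ω ∧ 0 < τ₁ ∧
    (∀ τ : ℝ, 0 < τ → τ < τ₁ → ∀ z ∈ Ω, curvature (fun z => φ z + τ * ψ (pr z)) z < 0) ∧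
    (∀ f : M → ℝ, ContDiffOn ℝ ∞ (fun z => f (pr z)) Ω →
      IsSurface Ω (fun z => φ z + f (pr z)) pr ∧ ∃ (μ : Measure M) (u : ℕ → M → ℝ) (lam : ℕ → ℝ),
        IsAreaM Ω (fun z => φ z + f (pr z)) pr μ ∧
        IsEigenbasis Ω (fun z => φ z + f (pr z)) pr μ u lam) ∧
    ∀ U : Set M, IsOpen U → Z ⊆ U → ∀ C ε Λ₀ : ℝ, 0 < ε → ∃ Λ₁ η : ℝ, 0 < η ∧
      ∀ f : M → ℝ, ContDiffOn ℝ ∞ (fun z => f (pr z)) Ω → (∀ x, |f x| < η) →
      ∀ μ : Measure M, IsAreaM Ω (fun z => φ z + f (pr z)) pr μ →
      ∀ (u : ℕ → M → ℝ) (lam : ℕ → ℝ), IsEigenbasis Ω (fun z => φ z + f (pr z)) pr μ u lam →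
      ∃ Λ : ℝ, Λ₀ ≤ Λ ∧ Λ ≤ Λ₁ ∧ C * Real.sqrt Λ < concentrated μ u lam U ε Λ := by
  obtain ⟨M, P, i1, i2, i3, i4, i5, i6, i7, Ω, φ, pr, q, ψ, L, δ, τ₁, hL, hδ, hsub, hinj, hflat, -,
    hZ, hUT, hK, hK0, hψ, hτ₁, hneg, hall, hloc⟩ := Pool.Agent.H240.NL.finL
  have conv : ∀ {φ' : ℂ → ℝ}, Pool.Agent.Y262.EG.IsUT Ω φ' pr q → IsSurface Ω φ' pr := by
    intro φ' h
    refine ⟨h.opn, h.smooth, h.contp, h.opnp, h.surjp, h.injp, ?_⟩
    intro z hz w hw he
    obtain ⟨θ', r, γ, h1, h2, h3, h4, h5, -⟩ := h.deck z hz w hw he 0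
    exact ⟨r, γ, h1, h2, h3, h4, h5⟩
  refine ⟨M, i1, i2, i3, i4, i5, Ω, φ, pr, ψ, pr '' {z | 0 ≤ z.re ∧ z.re ≤ L}, L, τ₁, conv hUT, hK,
    fun z hz hzZ => lt_of_le_of_ne (hK z hz) fun h0 => hzZ (hK0 z hz h0),
    ⟨hL, ⟨δ, hδ, hsub, fun z hz1 hz2 w hw1 hw2 => hinj z ⟨hz1, hz2⟩ w ⟨hw1, hw2⟩⟩, hflat, rfl⟩, hZ,
    hψ, hτ₁, hneg, fun f hf => ?_, fun U hU hZU C ε Λ₀ hε => ?_⟩
  · obtain ⟨h1, μ, h2, u, lam, h3⟩ := hall f hf
    exact ⟨conv h1, μ, u, lam, h2, ⟨h3.eig, h3.mono, h3.orth, h3.total⟩⟩
  · obtain ⟨Λ₁, η, hη, h⟩ := hloc U hU hZU C ε Λ₀ hε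
    exact ⟨Λ₁, η, hη, fun f hf hfη μ hμ u lam hu =>
      h f hf hfη μ hμ u lam ⟨hu.eig, hu.mono, hu.orth, hu.total⟩⟩

end Pool.Agent.Results.MP_07c750_an.LocalizationNearFlatCylinder
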