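import Pool.Agent.H240.NX.Final

/-!
# Negatively curved surfaces: no uniform bound for the number of exceptional eigenfunctions

There are a closed surface `M` with a smooth metric `g` of nonpositive curvature and smooth metrics
`g (τ) = exp (2 τ ψ) g` of strictly negative curvature, `0 < τ < τ1`, which converge to `g` in `C^∞`, such
that the number of exceptional eigenfunctions of the metrics `g (τ)` with eigenvalue at most `Λ` is not
bounded by `C √Λ` uniformly in `τ`. More precisely: for every `C` there are finitely many continuous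
functions `f` on `M` and an `ε > 0`, independent of `τ`, such that for all `K₀` and all small `τ > 0`
there is an orthonormal eigenbasis `u j` of `g (τ)` and a `K ≥ K₀` which is bounded independently of `τ`
such that for most of the `k < K` more than `C 2 ^ k` of the eigenfunctions `u j` with eigenvalue at most
`4 ^ k` are at a distance at least `ε` from equidistribution: `|∫ f u_j² - mean (f)| ≥ ε` for one of the
functions `f`. `Most` means: for at least `(1 - δ) K` of the `k < K`, where `δ > 0` is prescribed.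

So a bound `C √Λ` for the number of exceptional eigenfunctions, which would follow from a sufficiently
strong quantitative form of quantum ergodicity, cannot hold uniformly for the negatively curved metrics
in a set which is bounded in `C^∞`, with any threshold `Λ ≥ Λ₀` which is independent of the metric.

How a surface is described. `Ω` is an open set of the plane with a smooth conformal metric
`exp (2 φ) |dz|²`, and `pr : Ω → M` is a continuous, open, surjective and locally injective map onto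
the compact metric space `M`; points with the same image are related by a holomorphic local isometry
over `M`. So `M` is a closed surface and the metric descends to `M`.

Proof. For the limit metric `g` the number of exceptional eigenfunctions is not `O (√Λ)` for each
orthonormal basis of eigenfunctions which are even or odd with respect to the reflection of the surface
(see `MP_ed6ab2_an`, `ErgodicManyExceptional`; here the version with finitely many test functions is
used). Suppose that `τ_n → 0` and that for each `n` there is a basis of even and odd eigenfunctions of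
`g (τ_n)` which violates the conclusion. The eigenvalues and the eigenfunctions of a subsequence converge
(in `L²`, for each index); the limits form an orthonormal basis of even and odd eigenfunctions of `g`
(completeness of the limits: the `j`-th eigenvalue of `g` is at least the limit of the `j`-th eigenvalues
of `g (τ_n)`), and the numbers of exceptional eigenfunctions for finitely many scales pass to the limit.
This contradicts the statement for `g`. The surface, its reflection, the function `ψ`, the conformal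
families and the smoothness of the eigenfunctions are taken from the library (`Pool.Graph.R_seed8.Y262`
and the files it imports); the new parts are in `Pool/Agent/H240/QX` and `Pool/Agent/H240/NX`.
-/

set_option autoImplicit false

open Set Filter Topology MeasureTheory
open scoped ContDiff

noncomputable section

namespace Pool.Agent.Results.MP_07c750_an.NoUniformExceptionalBound

/-- the partial derivative with respect to `x` -/
def px (φ : ℂ → ℝ) (z : ℂ) : ℝ := fderiv ℝ φ z 1

/-- the partial derivative with respect to `y` -/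
def py (φ : ℂ → ℝ) (z : ℂ) : ℝ := fderiv ℝ φ z Complex.I

/-- the nonnegative Laplace-Beltrami operator of the metric `exp (2 φ) |dz|²` -/
def lapl (φ v : ℂ → ℝ) (z : ℂ) : ℝ := -(Real.exp (-2 * φ z) * (px (px v) z + py (py v) z))

/-- the Gauss curvature of the metric `exp (2 φ) |dz|²` -/
def curvature (φ : ℂ → ℝ) (z : ℂ) : ℝ := lapl φ φ z

section

variable {M : Type}

/-- `γ` is a holomorphic local isometry on the ball around `z` with radius `r`, over the surface, and
`γ z = w` -/
def LocIso (Ω : Set ℂ) (φ : ℂ → ℝ) (pr : ℂ → M) (r : ℝ) (γ : ℂ → ℂ) (z w : ℂ) : Prop :=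
  0 < r ∧ Metric.ball z r ⊆ Ω ∧ DifferentiableOn ℂ γ (Metric.ball z r) ∧ γ z = w ∧
    ∀ ζ ∈ Metric.ball z r, γ ζ ∈ Ω ∧ pr (γ ζ) = pr ζ ∧ deriv γ ζ ≠ 0 ∧
      φ (γ ζ) + Real.log ‖deriv γ ζ‖ = φ ζ

/-- `M` is a surface with a Riemannian metric which is covered by means of `pr` by the plane domain
`Ω` with the smooth metric `exp (2 φ) |dz|²` -/
structure IsSurface [TopologicalSpace M] (Ω : Set ℂ) (φ : ℂ → ℝ) (pr : ℂ → M) : Prop where
  domain : IsOpen Ω
  smooth : ContDiffOn ℝ ∞ φ Ω
  cont : ContinuousOn pr Ω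
  open_map : ∀ O : Set ℂ, IsOpen O → O ⊆ Ω → IsOpen (pr '' O)
  surj : pr '' Ω = univ
  loc_inj : ∀ z ∈ Ω, ∃ r : ℝ, 0 < r ∧ Metric.ball z r ⊆ Ω ∧ InjOn pr (Metric.ball z r)
  iso : ∀ z ∈ Ω, ∀ w ∈ Ω, pr z = pr w → ∃ (r : ℝ) (γ : ℂ → ℂ), LocIso Ω φ pr r γ z w

/-- `μ` is the area of the surface -/
def IsAreaM [MeasurableSpace M] (Ω : Set ℂ) (φ : ℂ → ℝ) (pr : ℂ → M) (μ : Measure M) : Prop :=
  ∀ B : Set ℂ, MeasurableSet B → B ⊆ Ω → InjOn pr B →
    μ (pr '' B) = ∫⁻ z in B, ENNReal.ofReal (Real.exp (2 * φ z))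

/-- `u` is a smooth real eigenfunction of the Laplacian of the surface with the eigenvalue `lam` -/
def IsEigenfunction (Ω : Set ℂ) (φ : ℂ → ℝ) (pr : ℂ → M) (lam : ℝ) (u : M → ℝ) : Prop :=
  ContDiffOn ℝ ∞ (fun z => u (pr z)) Ω ∧
    ∀ z ∈ Ω, lapl φ (fun z => u (pr z)) z = lam * u (pr z)

/-- `u 0, u 1, …` is an orthonormal basis of `L²` of smooth real eigenfunctions of the Laplacian of the
surface, ordered so that the eigenvalues `lam 0 ≤ lam 1 ≤ …` increase; the last condition says that the
span of the functions `u j` is dense in `L²` -/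
structure IsEigenbasis [MeasurableSpace M] (Ω : Set ℂ) (φ : ℂ → ℝ) (pr : ℂ → M) (μ : Measure M)
    (u : ℕ → M → ℝ) (lam : ℕ → ℝ) : Prop where
  eig : ∀ j, IsEigenfunction Ω φ pr (lam j) (u j)
  mono : Monotone lam
  orth : ∀ i j, ∫ x, u i x * u j x ∂μ = if i = j then 1 else 0
  total : ∀ f : M → ℝ, MemLp f 2 μ → (∀ j, ∫ x, f x * u j x ∂μ = 0) → f =ᵐ[μ] 0

/-- the number of the indices `j` with `lam j ≤ Λ` for which `u j` is at a distance at least `ε` from
equidistribution with respect to one of the functions `f ∈ G`: `|∫ f (u j)² - mean (f)| ≥ ε` -/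
def exceptional [TopologicalSpace M] [MeasurableSpace M] (μ : Measure M) (G : Finset C(M, ℝ)) (ε : ℝ)
    (u : ℕ → M → ℝ) (lam : ℕ → ℝ) (Λ : ℝ) : ℕ :=
  {j | (∃ f ∈ G, ε ≤ |∫ x, f x * (u j x) ^ 2 ∂μ - (∫ x, f x ∂μ) / μ.real univ|) ∧ lam j ≤ Λ}.ncard

end

/-- **No uniform bound for the number of exceptional eigenfunctions in negative curvature.** There are
a closed connected surface `M` with a smooth metric `exp (2 φ) |dz|²` of nonpositive curvature, a smooth
function `ψ` on `M` and `τ1 > 0` such that the metrics `g (τ) = exp (2 τ ψ) exp (2 φ) |dz|²`,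
`0 < τ < τ1`, have strictly negative curvature, and for all `C` and `δ > 0` there are a finite set `G` of
continuous functions on `M` and `ε > 0` such that for every `K0` there are `K1` and `τ0 > 0` such that for
`0 < τ < τ0` there are an ordered orthonormal basis of smooth real eigenfunctions `u j` of the Laplacian
of `g (τ)` with eigenvalues `lam j → ∞` and a `K ∈ [K0, K1]` such that for at least `(1 - δ) K` of the
`k < K` more than `C 2 ^ k` of the `u j` with `lam j ≤ 4 ^ k` are exceptional with respect to `G`, `ε`. -/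
theorem result : ∃ (M : Type) (_ : MetricSpace M) (_ : CompactSpace M) (_ : ConnectedSpace M)
    (_ : MeasurableSpace M) (_ : BorelSpace M) (Ω : Set ℂ) (φ : ℂ → ℝ) (pr : ℂ → M) (ψ : M → ℝ)
    (τ1 : ℝ),
    IsSurface Ω φ pr ∧ (∀ z ∈ Ω, curvature φ z ≤ 0) ∧ Continuous ψ ∧
    ContDiffOn ℝ ∞ (fun z => ψ (pr z)) Ω ∧ 0 < τ1 ∧
    (∀ τ : ℝ, 0 < τ → τ < τ1 → IsSurface Ω (fun z => φ z + τ * ψ (pr z)) pr ∧
      ∀ z ∈ Ω, curvature (fun z => φ z + τ * ψ (pr z)) z < 0) ∧
    ∀ (C : ℕ) (δ : ℝ), 0 < δ → ∃ (G : Finset C(M, ℝ)) (ε : ℝ), 0 < ε ∧ ∀ K0 : ℕ,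
      ∃ (K1 : ℕ) (τ0 : ℝ), 0 < τ0 ∧ ∀ τ : ℝ, 0 < τ → τ < τ0 →
        ∃ (μ : Measure M) (u : ℕ → M → ℝ) (lam : ℕ → ℝ),
          IsAreaM Ω (fun z => φ z + τ * ψ (pr z)) pr μ ∧
          IsEigenbasis Ω (fun z => φ z + τ * ψ (pr z)) pr μ u lam ∧ Tendsto lam atTop atTop ∧
          ∃ K : ℕ, K0 ≤ K ∧ K ≤ K1 ∧
            (1 - δ) * K ≤ (({k | C * 2 ^ k < exceptional μ G ε u lam (4 ^ k)} ∩ Iio K).ncard : ℝ) := by
  obtain ⟨M, P, i1, i2, i3, i4, i5, i6, i7, Ω, φ, pr, q, ψ, hUT, hK, hψ, hψs, ⟨τ1, hτ1, hneg⟩, hall⟩ :=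
    Pool.Agent.H240.NX.finalN
  have key : ∀ φ : ℂ → ℝ, Pool.Agent.Y262.EG.IsUT Ω φ pr q → IsSurface Ω φ pr := by
    intro φ hUT
    refine ⟨hUT.opn, hUT.smooth, hUT.contp, hUT.opnp, hUT.surjp, hUT.injp, ?_⟩
    intro z hz w hw h
    obtain ⟨θ', r, γ, h1, h2, h3, h4, h5, -⟩ := hUT.deck z hz w hw h 0
    exact ⟨r, γ, h1, h2, h3, h4, h5⟩
  have hsurf : ∃ τ2 : ℝ, 0 < τ2 ∧ ∀ τ : ℝ, 0 < τ → τ < τ2 →
      IsSurface Ω (fun z => φ z + τ * ψ (pr z)) pr := by
    obtain ⟨G, ε, -, h⟩ := hall 0 1 one_pos
    obtain ⟨K1, τ0, hτ0, h⟩ := h 0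
    exact ⟨τ0, hτ0, fun τ h1 h2 => key _ (h τ h1 h2).1⟩
  obtain ⟨τ2, hτ2, hsurf⟩ := hsurf
  refine ⟨M, i1, i2, i3, i4, i5, Ω, φ, pr, ψ, min τ1 τ2, key φ hUT, hK, hψ, hψs, lt_min hτ1 hτ2,
    fun τ h1 h2 => ⟨hsurf τ h1 (lt_of_lt_of_le h2 (min_le_right _ _)),
      hneg τ h1 (lt_of_lt_of_le h2 (min_le_left _ _))⟩, fun C δ hδ => ?_⟩
  obtain ⟨G, ε, hε, h⟩ := hall C δ hδ
  refine ⟨G, ε, hε, fun K0 => ?_⟩
  obtain ⟨K1, τ0, hτ0, h⟩ := h K0
  refine ⟨K1, τ0, hτ0, fun τ h1 h2 => ?_⟩
  obtain ⟨-, μ, u, lam, hA, hE, hm, ho, ht, hl, K, hK0, hK1, hK⟩ := h τ h1 h2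
  exact ⟨μ, u, lam, hA, ⟨hE, hm, ho, ht⟩, hl, K, hK0, hK1, hK⟩

end Pool.Agent.Results.MP_07c750_an.NoUniformExceptionalBound
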