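import Pool.Agent.H240.GU.Hyp2

/-!
# Scars near every closed geodesic of every negatively curved surface

Let `(M, g)` be ANY closed connected orientable surface with a smooth metric of negative curvature and let
`c` be ANY simple closed geodesic of `g` (scaled to length `2π`). They are described as follows: `M` is the
quotient of a plane domain `Ω` (contained in a half plane `Re z < R₀`) by a group `G` which acts freely,
properly discontinuously and cocompactly by holomorphic maps and which contains the translation by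
`2πi`, `g` is given by an invariant metric `exp (2 φ) |dz|²` on `Ω`, and the closed geodesic has a lift `c`
with `c (t + 2π) = c t + 2πi`. (Every closed orientable surface of negative curvature with a simple closed
geodesic is of this form: take for `Ω` the universal covering, which is conformally equivalent to a
vertical strip such that the deck transformation of the geodesic is the translation by `2πi`.)

Then there is a constant `K` such that for every `ε > 0` and `m` there are a closed curve `c'` which is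
`ε`-close to `c` with all derivatives up to the order `m` (and `c' = c` if `c` extends to an entire
function, for example for a closed geodesic of a hyperbolic surface, if `Ω` is chosen such that it is a
straight line), smooth functions `f` and `ψ` on `M` and `τ₁ > 0` such that for `0 ≤ τ < τ₁` the
function `f + τ ψ` has `C¹` norm at most `ε` (with respect to `g`), the metric
`g_τ = exp (2 (f + τ ψ)) g` has curvature at least `- K`, `c'` is a simple closed geodesic of `g_τ`, and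

* for `τ > 0` the curvature of `g_τ` is negative everywhere;
* for `τ = 0` it is negative outside of the closed geodesic `c'` and zero on it, and every ordered
  orthonormal basis `u j` of smooth real eigenfunctions of `g_0` has a subsequence, whose counting
  function is not `O (√Λ)`, along which the measures `u j ^ 2 dA` converge weakly to the uniform
  measure on `c'`;
* for every neighbourhood of the uniform measure on `c'` in the weak topology (given by a finite set `T`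
  of continuous functions and `ε' > 0`) and all `C`, `Λ₀` there are `Λ₁` and `η > 0` such that for ALL
  smooth metrics `exp (2 f') g` with `|f' - f| < η`, in particular for the negatively curved metrics
  `g_τ` with small `τ > 0`, and for every basis as above some `Λ` with `Λ₀ ≤ Λ ≤ Λ₁` has more than
  `C √Λ` indices `j` with eigenvalue at most `Λ` for which `u j ^ 2 dA` is in the neighbourhood.

So in every conformal class the metrics of negative curvature with such windows of eigenfunctions, at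
arbitrarily high energy, scarred by a closed geodesic near a given one, form sets which are open in the
`C⁰` topology and dense in the `C¹` topology, with uniformly bounded curvature.

Ingredients of the proof: `c` is approximated by curves `t ↦ Γ (i t)` with entire functions `Γ` (Fourier
series), which have thin holomorphic collars; the metric in such a collar is replaced by a regularized
maximum of it and a convex function of `Re z`, which makes it flat exactly on a thin cylinder; a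
theorem on complete localization in flat cylinders for almost all parameters of a perturbation; the
identities of Rellich show the uniform distribution in the direction of `c'`; eigenfunctions are stable
under small changes of the metric; the perturbations are summed up so that the cylinders shrink to `c'`.
-/

set_option autoImplicit false

open Set Filter Topology MeasureTheory
open scoped ContDiff

noncomputable section

namespace Pool.Agent.Results.MP_07c750_an.ScarsNearEveryGeodesic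

/-- the partial derivative with respect to `x` -/
def px (φ : ℂ → ℝ) (z : ℂ) : ℝ := fderiv ℝ φ z 1

/-- the partial derivative with respect to `y` -/
def py (φ : ℂ → ℝ) (z : ℂ) : ℝ := fderiv ℝ φ z Complex.I

/-- the nonnegative Laplace-Beltrami operator of the metric `exp (2 φ) |dz|²` -/
def lapl (φ v : ℂ → ℝ) (z : ℂ) : ℝ := -(Real.exp (-2 * φ z) * (px (px v) z + py (py v) z))

/-- the Gauss curvature of the metric `exp (2 φ) |dz|²` -/
def curvature (φ : ℂ → ℝ) (z : ℂ) : ℝ := lapl φ φ z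

/-- The group `G` acts on the connected open set `Ω` of the plane by holomorphic maps `a γ`, freely
(modulo the elements which act trivially), properly discontinuously and cocompactly. -/
structure IsCocompactAction (G : Type) [Group G] (Ω : Set ℂ) (a : G → ℂ → ℂ) : Prop where
  domain : IsOpen Ω
  conn : IsPreconnected Ω
  nonempty : Ω.Nonempty
  maps : ∀ γ, ∀ z ∈ Ω, a γ z ∈ Ω
  one : ∀ z ∈ Ω, a 1 z = z
  mul : ∀ γ γ', ∀ z ∈ Ω, a (γ * γ') z = a γ (a γ' z)
  hol : ∀ γ, DifferentiableOn ℂ (a γ) Ω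
  free : ∀ γ, ∀ z ∈ Ω, a γ z = z → ∀ w ∈ Ω, a γ w = w
  proper : ∀ K : Set ℂ, IsCompact K → K ⊆ Ω → {γ | (a γ '' K ∩ K).Nonempty}.Finite
  cocompact : ∃ K : Set ℂ, IsCompact K ∧ K ⊆ Ω ∧ ∀ z ∈ Ω, ∃ γ, a γ z ∈ K

/-- the smooth metric `exp (2 φ) |dz|²` on `Ω` is invariant under the group -/
def IsInvariantMetric {G : Type} (Ω : Set ℂ) (a : G → ℂ → ℂ) (φ : ℂ → ℝ) : Prop :=
  ContDiffOn ℝ ∞ φ Ω ∧ ∀ γ, ∀ z ∈ Ω, deriv (a γ) z ≠ 0 ∧
    φ (a γ z) + Real.log ‖deriv (a γ) z‖ = φ z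

section

variable {M : Type}

/-- `M` is the quotient of `Ω` by the group, with the projection `pr` (a covering) -/
structure IsQuotient [TopologicalSpace M] {G : Type} (Ω : Set ℂ) (a : G → ℂ → ℂ) (pr : ℂ → M) :
    Prop where
  cont : ContinuousOn pr Ω
  open_map : ∀ O : Set ℂ, IsOpen O → O ⊆ Ω → IsOpen (pr '' O)
  surj : pr '' Ω = univ
  rel : ∀ z ∈ Ω, ∀ w ∈ Ω, (pr z = pr w ↔ ∃ γ, a γ z = w)
  loc_inj : ∀ z ∈ Ω, ∃ r : ℝ, 0 < r ∧ Metric.ball z r ⊆ Ω ∧ InjOn pr (Metric.ball z r)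
  conn : IsPreconnected (univ : Set M)

/-- `M = Ω / G` is a closed connected surface with the metric `exp (2 φ) |dz|²` of negative curvature;
the domain `Ω` is contained in a half plane `Re z < R₀`, and the translation by `2πi` belongs to the
group -/
structure IsNegativelyCurvedSurface (G : Type) [Group G] [TopologicalSpace M] (Ω : Set ℂ)
    (a : G → ℂ → ℂ) (φ : ℂ → ℝ) (pr : ℂ → M) : Prop where
  action : IsCocompactAction G Ω a
  quotient : IsQuotient Ω a pr
  metric : IsInvariantMetric Ω a φ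
  negative : ∀ z ∈ Ω, curvature φ z < 0
  translation : ∃ γ : G, ∀ z ∈ Ω, a γ z = z + 2 * Real.pi * Complex.I
  bounded : ∃ R₀ : ℝ, ∀ z ∈ Ω, z.re < R₀

/-- the unit vectors `(z, θ)` (the vector `exp (- φ z) exp (i θ)` at `z`) at the points of `Ω` -/
def UV (Ω : Set ℂ) : Set (ℂ × ℝ) := {p | p.1 ∈ Ω}

/-- `μ` is the area of the surface -/
def IsAreaM [MeasurableSpace M] (Ω : Set ℂ) (φ : ℂ → ℝ) (pr : ℂ → M) (μ : Measure M) : Prop :=
  ∀ B : Set ℂ, MeasurableSet B → B ⊆ Ω → InjOn pr B →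
    μ (pr '' B) = ∫⁻ z in B, ENNReal.ofReal (Real.exp (2 * φ z))

/-- the geodesic vector field: `z' = exp (- φ) exp (i θ)`,
`θ' = exp (- φ) (- φ_x sin θ + φ_y cos θ)` -/
def geod (φ : ℂ → ℝ) (p : ℂ × ℝ) : ℂ × ℝ :=
  (⟨Real.exp (-φ p.1) * Real.cos p.2, Real.exp (-φ p.1) * Real.sin p.2⟩,
    Real.exp (-φ p.1) * (-(px φ p.1) * Real.sin p.2 + py φ p.1 * Real.cos p.2))

/-- `F` is the geodesic flow (it is complete and smooth) -/
structure IsGeodesicFlow (Ω : Set ℂ) (φ : ℂ → ℝ) (F : ℝ → ℂ × ℝ → ℂ × ℝ) : Prop where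
  maps : ∀ t, ∀ p ∈ UV Ω, F t p ∈ UV Ω
  zero : ∀ p ∈ UV Ω, F 0 p = p
  ode : ∀ t, ∀ p ∈ UV Ω, HasDerivAt (fun τ => F τ p) (geod φ (F t p)) t
  smooth : ContDiffOn ℝ ∞ (fun a : ℝ × (ℂ × ℝ) => F a.1 a.2) {a | a.2 ∈ UV Ω}

/-- `t ↦ pr (c t)` is a simple closed geodesic of length `2π` of the metric `exp (2 φ) |dz|²`,
parametrised by the arc length: `c` is the projection of an orbit of the geodesic flow, its lift `c`
satisfies `c (t + 2π) = c t + 2πi`, and `c s`, `c t` are the same point of the surface if and only if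
`t - s` is a multiple of `2π` -/
structure IsClosedGeodesic (Ω : Set ℂ) (φ : ℂ → ℝ) (pr : ℂ → M) (c : ℝ → ℂ) : Prop where
  mem : c 0 ∈ Ω
  orbit : ∃ (F : ℝ → ℂ × ℝ → ℂ × ℝ) (θ : ℝ), IsGeodesicFlow Ω φ F ∧ ∀ t, (F t (c 0, θ)).1 = c t
  period : ∀ t, c (t + 2 * Real.pi) = c t + 2 * Real.pi * Complex.I
  simple : ∀ s t, pr (c s) = pr (c t) ↔ ∃ n : ℤ, t = s + n * (2 * Real.pi)

/-- `u` is a smooth real eigenfunction of the Laplacian of the surface with the eigenvalue `lam` -/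
def IsEigenfunction (Ω : Set ℂ) (φ : ℂ → ℝ) (pr : ℂ → M) (lam : ℝ) (u : M → ℝ) : Prop :=
  ContDiffOn ℝ ∞ (fun z => u (pr z)) Ω ∧
    ∀ z ∈ Ω, lapl φ (fun z => u (pr z)) z = lam * u (pr z)

/-- `u 0, u 1, …` is an orthonormal basis of `L²` of smooth real eigenfunctions of the Laplacian of the
surface, ordered so that the eigenvalues `lam 0 ≤ lam 1 ≤ …` increase; the last condition says that the
span of the functions `u j` is dense in `L²` -/
structure IsEigenbasis [MeasurableSpace M] (Ω : Set ℂ) (φ : ℂ → ℝ) (pr : ℂ → M) (μ : Measure M)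
    (u : ℕ → M → ℝ) (lam : ℕ → ℝ) : Prop where
  eig : ∀ j, IsEigenfunction Ω φ pr (lam j) (u j)
  mono : Monotone lam
  orth : ∀ i j, ∫ x, u i x * u j x ∂μ = if i = j then 1 else 0
  total : ∀ f : M → ℝ, MemLp f 2 μ → (∀ j, ∫ x, f x * u j x ∂μ = 0) → f =ᵐ[μ] 0

/-- the smooth function `f` and its gradient with respect to the metric `exp (2 φ) |dz|²` are bounded
by `ε` -/
structure C1Small (Ω : Set ℂ) (φ : ℂ → ℝ) (pr : ℂ → M) (f : M → ℝ) (ε : ℝ) : Prop where
  smooth : ContDiffOn ℝ ∞ (fun z => f (pr z)) Ω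
  value : ∀ x, |f x| ≤ ε
  gradient : ∀ z ∈ Ω, Real.exp (-φ z) * ‖fderiv ℝ (fun z => f (pr z)) z‖ ≤ ε

/-- the mean value of `h` on the closed geodesic -/
def curveMean (pr : ℂ → M) (c : ℝ → ℂ) (h : M → ℝ) : ℝ :=
  (2 * Real.pi)⁻¹ * ∫ t in (0 : ℝ)..(2 * Real.pi), h (pr (c t))

end

/-- the number of the `j` with `lam j ≤ Λ` for which `∫ h u j ^ 2 dA` differs from the mean value of `h`
on the closed geodesic by at most `ε`, for all functions `h` of the finite set `T` -/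
def numberNear {M : Type} [TopologicalSpace M] [MeasurableSpace M] (pr : ℂ → M) (c : ℝ → ℂ)
    (μ : Measure M) (u : ℕ → M → ℝ) (lam : ℕ → ℝ) (T : Finset C(M, ℝ)) (ε Λ : ℝ) : ℕ :=
  {j | (∀ h ∈ T, |(∫ x, h x * (u j x) ^ 2 ∂μ) - curveMean pr c h| ≤ ε) ∧ lam j ≤ Λ}.ncard

/-- **Scars near every closed geodesic of every negatively curved surface.** The first part says that the
hypotheses can be satisfied by a closed hyperbolic surface (of curvature `- k`). -/
theorem result :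
    (∃ (G : Type) (_ : Group G) (M : Type) (_ : MetricSpace M) (_ : CompactSpace M) (Ω : Set ℂ)
      (a : G → ℂ → ℂ) (φ : ℂ → ℝ) (pr : ℂ → M) (c : ℝ → ℂ) (k : ℝ),
      IsNegativelyCurvedSurface G Ω a φ pr ∧ IsClosedGeodesic Ω φ pr c ∧ 0 < k ∧
      ∀ z ∈ Ω, curvature φ z = -k) ∧
    ∀ (G : Type) [Group G] (M : Type) [MetricSpace M] [CompactSpace M] [MeasurableSpace M]
      [BorelSpace M] (Ω : Set ℂ) (a : G → ℂ → ℂ) (φ : ℂ → ℝ) (pr : ℂ → M) (c : ℝ → ℂ),
      IsNegativelyCurvedSurface G Ω a φ pr → IsClosedGeodesic Ω φ pr c →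
    (∀ f : M → ℝ, ContDiffOn ℝ ∞ (fun z => f (pr z)) Ω →
      IsInvariantMetric Ω a (fun z => φ z + f (pr z)) ∧
      ∃ μ : Measure M, IsAreaM Ω (fun z => φ z + f (pr z)) pr μ ∧ IsFiniteMeasure μ ∧
        ∃ (u : ℕ → M → ℝ) (lam : ℕ → ℝ), IsEigenbasis Ω (fun z => φ z + f (pr z)) pr μ u lam) ∧
    ∃ K : ℝ, ∀ (ε : ℝ) (m : ℕ), 0 < ε → ∃ (c' : ℝ → ℂ) (f ψ : M → ℝ) (τ₁ : ℝ), 0 < τ₁ ∧
      (∀ j ≤ m, ∀ t, ‖iteratedDeriv j c' t - iteratedDeriv j c t‖ ≤ ε) ∧
      (∀ Γ : ℂ → ℂ, Differentiable ℂ Γ →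
        (∀ z, Γ (z + 2 * Real.pi * Complex.I) = Γ z + 2 * Real.pi * Complex.I) →
        (∀ t : ℝ, Γ (t * Complex.I) = c t) → c' = c) ∧
      (∀ τ : ℝ, 0 ≤ τ → τ < τ₁ → C1Small Ω φ pr (fun x => f x + τ * ψ x) ε ∧
        IsClosedGeodesic Ω (fun z => φ z + (f (pr z) + τ * ψ (pr z))) pr c' ∧
        ∀ z ∈ Ω, -K ≤ curvature (fun z => φ z + (f (pr z) + τ * ψ (pr z))) z ∧
          (0 < τ → curvature (fun z => φ z + (f (pr z) + τ * ψ (pr z))) z < 0)) ∧
      (∀ z ∈ Ω, curvature (fun z => φ z + f (pr z)) z ≤ 0 ∧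
        (curvature (fun z => φ z + f (pr z)) z = 0 ↔ ∃ t : ℝ, pr (c' t) = pr z)) ∧
      (∀ μ : Measure M, IsAreaM Ω (fun z => φ z + f (pr z)) pr μ →
        ∀ (u : ℕ → M → ℝ) (lam : ℕ → ℝ), IsEigenbasis Ω (fun z => φ z + f (pr z)) pr μ u lam →
        Tendsto lam atTop atTop ∧ ∃ J : Set ℕ,
          (∀ C : ℝ, ∃ᶠ Λ : ℝ in atTop,
            C * Real.sqrt Λ < ({j | j ∈ J ∧ lam j ≤ Λ}.ncard : ℝ)) ∧
          ∀ h : M → ℝ, Continuous h → Tendsto (fun j => ∫ x, h x * (u j x) ^ 2 ∂μ)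
            (atTop ⊓ 𝓟 J) (𝓝 (curveMean pr c' h))) ∧
      ∀ (T : Finset C(M, ℝ)) (C ε' Λ₀ : ℝ), 0 < ε' → ∃ (Λ₁ η : ℝ), 0 < η ∧
        ∀ f' : M → ℝ, ContDiffOn ℝ ∞ (fun z => f' (pr z)) Ω → (∀ x, |f' x - f x| < η) →
        ∀ μ : Measure M, IsAreaM Ω (fun z => φ z + f' (pr z)) pr μ →
        ∀ (u : ℕ → M → ℝ) (lam : ℕ → ℝ), IsEigenbasis Ω (fun z => φ z + f' (pr z)) pr μ u lam →
        ∃ Λ : ℝ, Λ₀ ≤ Λ ∧ Λ ≤ Λ₁ ∧ C * Real.sqrt Λ < numberNear pr c' μ u lam T ε' Λ := by
  have hcu : ∀ {M : Type} {Ω : Set ℂ} {φ : ℂ → ℝ} {pr : ℂ → M} {c : ℝ → ℂ},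
      Pool.Agent.H240.GV.Cu Ω φ pr c → IsClosedGeodesic Ω φ pr c := by
    intro M Ω φ pr c h
    obtain ⟨F, θ, hF, ho⟩ := h.orbit
    exact ⟨h.mem, ⟨F, θ, ⟨hF.maps, hF.zero, hF.ode, hF.smooth⟩, ho⟩, h.per, h.simple⟩
  refine ⟨?_, ?_⟩
  · obtain ⟨G, iG, Ω, a, φ, M, iM, iC, pr, γ₀, R₀, k, c, hA, hI, hpr, hγ, hR, hk, hc, h⟩ :=
      Pool.Agent.H240.GV.hyp2
    exact ⟨G, iG, M, iM, iC, Ω, a, φ, pr, c, k, ⟨⟨hA.opn, hA.conn, hA.ne, hA.maps, hA.one,
      hA.mul, hA.hol, hA.free, hA.fin, hA.cpt⟩, ⟨hpr.cont, hpr.opn, hpr.surj, hpr.rel, hpr.inj,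
      hpr.conn⟩, hI, fun z hz => (hc z hz).trans_lt (by linarith), ⟨γ₀, hγ⟩, ⟨R₀, hR⟩⟩, hcu h, hk,
      hc⟩
  intro G _ M _ _ _ _ Ω a φ pr c hS hc
  obtain ⟨hG, hM, hφ, hK, ⟨γ₀, hγ⟩, ⟨R₀, hR⟩⟩ := hS
  have hA : Pool.Agent.Y262.EX.Act G Ω a := ⟨hG.domain, hG.conn, hG.nonempty, hG.maps, hG.one,
    hG.mul, hG.hol, hG.free, hG.proper, hG.cocompact⟩
  have hI : Pool.Agent.Y262.EX.Inva Ω φ a := hφ
  have hpr : Pool.Agent.Y262.EX.PrM Ω a pr :=
    ⟨hM.cont, hM.open_map, hM.surj, hM.rel, hM.loc_inj, hM.conn⟩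
  have hc0 : Pool.Agent.H240.GV.Cu Ω φ pr c := by
    obtain ⟨F, θ, hF, ho⟩ := hc.orbit
    exact ⟨⟨F, θ, ⟨hF.maps, hF.zero, hF.ode, hF.smooth⟩, ho⟩, hc.mem, hc.period, hc.simple⟩
  obtain ⟨P, iP, cP, iPm, iPb, q, hq, hUT, hall, K, hmain⟩ :=
    Pool.Agent.H240.GV.finA G M Ω a φ pr c R₀ γ₀ hA hI hpr hγ hR hK hc0
  refine ⟨fun f hf => ?_, K, fun ε m hε => ?_⟩
  · obtain ⟨a0, -, -, μ, a1, a2, u, lam, hu⟩ := hall f hf
    exact ⟨a0, μ, a1, a2, u, lam, hu.eig, hu.mono, hu.orth, hu.total⟩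
  · obtain ⟨c', f, ψ, τ₁, b1, b2, h⟩ := hmain ε m hε
    refine ⟨c', f, ψ, τ₁, h.τp, b1, b2, fun τ h1 h2 => ?_, h.zer, fun μ hμ u lam hu => ?_,
      fun T C ε' Λ₀ hε' => ?_⟩
    · obtain ⟨s1, s2, s3⟩ := h.sm τ h1 h2
      exact ⟨⟨s1, s2, s3⟩, hcu (h.cu τ h1 h2),
        fun z hz => ⟨h.low τ h1 h2 z hz, fun h3 => h.neg τ h3 h2 z hz⟩⟩
    · obtain ⟨d1, J, d2, d3, -⟩ := h.spec.scar μ hμ u lam ⟨hu.eig, hu.mono, hu.orth, hu.total⟩
      exact ⟨d1, J, d2, d3⟩
    · obtain ⟨Λ₁, η, hη, hw⟩ := h.spec.win T C ε' Λ₀ hε'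
      exact ⟨Λ₁, η, hη, fun f' hf' hfη μ hμ u lam hu =>
        hw f' hf' hfη μ hμ u lam ⟨hu.eig, hu.mono, hu.orth, hu.total⟩⟩

end Pool.Agent.Results.MP_07c750_an.ScarsNearEveryGeodesic
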